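import Pool.Agent.Y198.DC.Stm2

/-!
# DD-MATR: the periodic exact pair over a hypersurface ring
-/

universe u

open IsLocalRing

namespace Pool.Agent.Y239.DC.MATR

section

variable {R S : Type u} [CommRing R] [CommRing S] {f : S} (π : S →+* R)
  {ι : Type} [Fintype ι] [DecidableEq ι]

lemma entry (A B : Matrix ι ι S) (hAB : A * B = f • (1 : Matrix ι ι S)) (i : ι) :
    ∑ j, A i j * B j i = f := by
  have h := congrFun (congrFun hAB i) i
  rw [Matrix.mul_apply] at h
  rw [h, Matrix.smul_apply, Matrix.one_apply_eq, smul_eq_mul, mul_one]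

lemma nz [IsLocalRing S] [Nonempty ι] (hker : ∀ s, π s = 0 ↔ f ∣ s)
    (hf : ∀ s, f * s = 0 → s = 0) (A B : Matrix ι ι S)
    (hB : ∀ i j, B i j ∈ maximalIdeal S) (hAB : A * B = f • (1 : Matrix ι ι S)) :
    A.map π ≠ 0 := by
  intro h
  obtain ⟨i⟩ := ‹Nonempty ι›
  have h1 : ∀ j, f ∣ A i j := fun j => (hker _).1 (congrFun (congrFun h i) j)
  choose c hc using h1
  have h3 : f * (1 - ∑ j, c j * B j i) = 0 := by
    have h4 : f * (1 - ∑ j, c j * B j i) = f - ∑ j, A i j * B j i := by
      rw [mul_sub, mul_one, Finset.mul_sum]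
      congr 1
      exact Finset.sum_congr rfl fun j _ => by rw [hc j, mul_assoc]
    rw [h4, entry A B hAB i, sub_self]
  have h5 := hf _ h3
  have h6 : (1 : S) ∈ maximalIdeal S := by
    rw [sub_eq_zero.1 h5]
    exact Ideal.sum_mem _ fun j _ => Ideal.mul_mem_left _ _ (hB j i)
  exact (maximalIdeal.isMaximal S).ne_top ((Ideal.eq_top_iff_one _).2 h6)

lemma ex (hs : Function.Surjective π) (hker : ∀ s, π s = 0 ↔ f ∣ s)
    (hf : ∀ s, f * s = 0 → s = 0) (A B : Matrix ι ι S)
    (hAB : A * B = f • (1 : Matrix ι ι S)) (hBA : B * A = f • (1 : Matrix ι ι S)) :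
    LinearMap.ker (A.map π).mulVecLin = LinearMap.range (B.map π).mulVecLin := by
  have hf0 : π f = 0 := (hker f).2 dvd_rfl
  ext v
  rw [LinearMap.mem_ker, LinearMap.mem_range]
  constructor
  · intro h
    rw [Matrix.mulVecLin_apply] at h
    set V : ι → S := fun i => Function.surjInv hs (v i) with hV
    have hv : π ∘ V = v := funext fun i => Function.surjInv_eq hs (v i)
    have h1 : ∀ i, f ∣ A.mulVec V i := by
      intro i
      rw [← hker, RingHom.map_mulVec, hv]
      exact congrFun h i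
    choose U hU using h1
    have h2 : A.mulVec V = f • U := funext fun i => hU i
    have h3 : f • V = f • B.mulVec U := by
      have h4 : (B * A).mulVec V = f • B.mulVec U := by
        rw [← Matrix.mulVec_mulVec, h2, Matrix.mulVec_smul]
      rw [hBA, Matrix.smul_mulVec, Matrix.one_mulVec] at h4
      exact h4
    have h5 : V = B.mulVec U := by
      funext i
      have h6 := congrFun h3 i
      have h7 : f * (V i - B.mulVec U i) = 0 := by
        rw [mul_sub]
        exact sub_eq_zero.2 h6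
      exact sub_eq_zero.1 (hf _ h7)
    refine ⟨π ∘ U, ?_⟩
    rw [Matrix.mulVecLin_apply, ← hv]
    funext i
    rw [← RingHom.map_mulVec, ← h5]
    rfl
  · rintro ⟨u, rfl⟩
    rw [Matrix.mulVecLin_apply, Matrix.mulVecLin_apply, Matrix.mulVec_mulVec, ← Matrix.map_mul,
      hAB]
    have h1 : (f • (1 : Matrix ι ι S)).map π = 0 := by
      ext i j
      rw [Matrix.map_apply, Matrix.smul_apply, smul_eq_mul, map_mul, hf0, zero_mul]
      rfl
    rw [h1, Matrix.zero_mulVec]

end

theorem t : Pool.Agent.Y198.DC.S_MATR := by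
  intro R S _ _ _ _ f hf e ι _ _ _ A B hA hB hAB hBA
  set π : S →+* R := (e.symm : S ⧸ Ideal.span {f} →+* R).comp
    (Ideal.Quotient.mk (Ideal.span {f})) with hπ
  have hs : Function.Surjective π := fun r => by
    obtain ⟨s, hs⟩ := Ideal.Quotient.mk_surjective (e r)
    exact ⟨s, by
      show e.symm (Ideal.Quotient.mk (Ideal.span {f}) s) = r
      rw [hs, e.symm_apply_apply]⟩
  have hker : ∀ s, π s = 0 ↔ f ∣ s := by
    intro s
    show e.symm (Ideal.Quotient.mk (Ideal.span {f}) s) = 0 ↔ _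
    rw [map_eq_zero_iff _ e.symm.injective, Ideal.Quotient.eq_zero_iff_mem,
      Ideal.mem_span_singleton]
  have hf1 : ∀ s, f * s = 0 → s = 0 := fun s h =>
    (mul_left_mem_nonZeroDivisors_eq_zero_iff hf).1 h
  have hfm : f ∈ maximalIdeal S := by
    obtain ⟨i⟩ := ‹Nonempty ι›
    rw [← entry A B hAB i]
    exact Ideal.sum_mem _ fun j _ => Ideal.mul_mem_left _ _ (hB j i)
  have hloc : ∀ s ∈ maximalIdeal S, π s ∈ maximalIdeal R := by
    intro s hs1
    rw [mem_maximalIdeal, mem_nonunits_iff]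
    intro hu
    obtain ⟨r, hr⟩ := hu.exists_right_inv
    obtain ⟨t, rfl⟩ := hs r
    have h1 : f ∣ s * t - 1 := by
      rw [← hker, map_sub, map_mul, hr, map_one, sub_self]
    obtain ⟨c, hc⟩ := h1
    have h2 : (1 : S) ∈ maximalIdeal S := by
      have h3 : (1 : S) = s * t - f * c := by rw [← hc]; ring
      rw [h3]
      exact Ideal.sub_mem _ (Ideal.mul_mem_right _ _ hs1) (Ideal.mul_mem_right _ _ hfm)
    exact (maximalIdeal.isMaximal S).ne_top ((Ideal.eq_top_iff_one _).2 h2)
  exact ⟨A.map π, B.map π, fun i j => hloc _ (hA i j), fun i j => hloc _ (hB i j),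
    nz π hker hf1 A B hB hAB, nz π hker hf1 B A hA hBA, ex π hs hker hf1 A B hAB hBA,
    ex π hs hker hf1 B A hBA hAB⟩

end Pool.Agent.Y239.DC.MATR
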